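import Pool.Agent.H87.QP.Targets2

/-!
Row RZL of qp_modules (MP_c59857_nt): no linear relation between the shifts of Liouville's
function, coefficients chosen after the window.
-/

set_option autoImplicit false

namespace Pool.Agent.H19.QP

open Finset Pool.Agent.H18.MR Pool.Agent.H93.DE Pool.Agent.H6.N4D Pool.Agent.H93
  Pool.Agent.H93.ES Pool.Agent.H28.NW Pool.Agent.H87.QP

/-- the mean square of the difference to a sum of `R` exponentials on the window `(n, n + S]` -/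
noncomputable def er (lam : ℕ → ℝ) (R S n : ℕ) (b : ℕ → ℂ) (β : ℕ → ℝ) : ℝ :=
  (∑ x ∈ Ioc n (n + S), ‖(lam x : ℂ) - ∑ r ∈ range R, b r * ee (β r * x)‖ ^ 2) / (S : ℝ)

lemma er_nonneg (lam : ℕ → ℝ) (R S n : ℕ) (b : ℕ → ℂ) (β : ℕ → ℝ) : 0 ≤ er lam R S n b β := by
  unfold er
  exact div_nonneg (sum_nonneg fun _ _ => sq_nonneg _) (Nat.cast_nonneg _)

lemma er_zero (lam : ℕ → ℝ) (hl : ∀ n, lam n = 1 ∨ lam n = -1) (R S n : ℕ) (hS : 1 ≤ S)
    (β : ℕ → ℝ) : er lam R S n (fun _ => 0) β = 1 := by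
  unfold er
  have hS0 : (S : ℝ) ≠ 0 := by
    have : (0 : ℝ) < S := by exact_mod_cast hS
    exact this.ne'
  rw [div_eq_one_iff_eq hS0]
  calc ∑ x ∈ Ioc n (n + S), ‖(lam x : ℂ) - ∑ r ∈ range R, (0 : ℂ) * ee (β r * x)‖ ^ 2
      = ∑ x ∈ Ioc n (n + S), (1 : ℝ) := by
        refine sum_congr rfl fun x _ => ?_
        simp only [zero_mul, sum_const_zero, sub_zero]
        rcases hl x with h | h <;> rw [h] <;> simp
    _ = S := by simp

/-- one model for every window, chosen from the models of the windows which contain it -/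
lemma avg_choice (lam : ℕ → ℝ) (hl : ∀ n, lam n = 1 ∨ lam n = -1) (R S T : ℕ) (hS : 1 ≤ S)
    (hT : 1 ≤ T) (b : ℕ → ℕ → ℕ → ℂ) (β : ℕ → ℕ → ℕ → ℝ) (hb : ∀ n t r, ‖b n t r‖ ≤ 1)
    (X : Wn) : ∃ (B : ℕ → ℕ → ℂ) (β' : ℕ → ℕ → ℝ), (∀ n r, ‖B n r‖ ≤ 1) ∧
    wlg X (fun n => er lam R S n (B n) (β' n)) ≤
      wlg X (fun n => (∑ t ∈ range T, er lam R S (n + 1 + t) (b n t) (β n t)) / T) +
        3 * EB.hs T := by
  have hT0 : (0 : ℝ) < T := by exact_mod_cast hT
  have hpt : ∀ n, ∃ (b' : ℕ → ℂ) (β' : ℕ → ℝ), (∀ r, ‖b' r‖ ≤ 1) ∧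
      er lam R S n b' β' ≤
        (∑ t ∈ range T, min 1 (er lam R S n (b (n - 1 - t) t) (β (n - 1 - t) t))) / T := by
    intro n
    obtain ⟨g, hg⟩ : ∃ g : ℕ → ℝ, g = fun t => min 1 (er lam R S n (b (n - 1 - t) t)
      (β (n - 1 - t) t)) := ⟨_, rfl⟩
    have h1 : ∑ t ∈ range T, g t ≤ ∑ t ∈ range T, (∑ t ∈ range T, g t) / T := by
      rw [sum_const, card_range, nsmul_eq_mul]
      exact (mul_div_cancel₀ _ hT0.ne').ge
    obtain ⟨t, -, h2⟩ := exists_le_of_sum_le (nonempty_range_iff.2 (by omega)) h1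
    have h3 : ∑ t ∈ range T, min 1 (er lam R S n (b (n - 1 - t) t) (β (n - 1 - t) t)) =
        ∑ t ∈ range T, g t := by rw [hg]
    rw [h3]
    by_cases h4 : er lam R S n (b (n - 1 - t) t) (β (n - 1 - t) t) ≤ 1
    · refine ⟨b (n - 1 - t) t, β (n - 1 - t) t, hb _ _, ?_⟩
      have h5 : g t = er lam R S n (b (n - 1 - t) t) (β (n - 1 - t) t) := by
        rw [hg]
        exact min_eq_right h4
      rw [← h5]
      exact h2
    · refine ⟨fun _ => 0, fun _ => 0, fun _ => by simp, ?_⟩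
      have h5 : g t = 1 := by
        rw [hg]
        exact min_eq_left (not_le.1 h4).le
      rw [er_zero lam hl R S n hS, ← h5]
      exact h2
  choose B β' hB hE using hpt
  refine ⟨B, β', hB, ?_⟩
  have h1 : wlg X (fun n => er lam R S n (B n) (β' n)) ≤
      wlg X (fun n => (∑ t ∈ range T,
        min 1 (er lam R S n (b (n - 1 - t) t) (β (n - 1 - t) t))) / T) :=
    wlg_mono fun n _ => hE n
  have h2 : wlg X (fun n => (∑ t ∈ range T,
        min 1 (er lam R S n (b (n - 1 - t) t) (β (n - 1 - t) t))) / T) =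
      (∑ t ∈ range T, wlg X (fun n =>
        min 1 (er lam R S n (b (n - 1 - t) t) (β (n - 1 - t) t)))) / T := by
    rw [← wlg_sum, div_eq_inv_mul, ← wlg_mul]
    exact congrArg (wlg X) (funext fun n => div_eq_inv_mul _ _)
  have h3 : wlg X (fun n => (∑ t ∈ range T, er lam R S (n + 1 + t) (b n t) (β n t)) / T) =
      (∑ t ∈ range T, wlg X (fun n => er lam R S (n + 1 + t) (b n t) (β n t))) / T := by
    rw [← wlg_sum, div_eq_inv_mul, ← wlg_mul]
    exact congrArg (wlg X) (funext fun n => div_eq_inv_mul _ _)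
  have h4 : ∀ t ∈ range T, wlg X (fun n =>
      min 1 (er lam R S n (b (n - 1 - t) t) (β (n - 1 - t) t))) ≤
      wlg X (fun n => er lam R S (n + 1 + t) (b n t) (β n t)) + 3 * EB.hs T := by
    intro t ht
    rw [mem_range] at ht
    have h5 := wlg_shift X (1 + t) (fun n =>
      min 1 (er lam R S n (b (n - 1 - t) t) (β (n - 1 - t) t))) (c := 1) (fun n => by
        rw [abs_of_nonneg (le_min zero_le_one (er_nonneg _ _ _ _ _ _))]
        exact min_le_left _ _)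
    have h6 := (abs_le.1 h5).1
    have h7 : EB.hs (1 + t) ≤ EB.hs T := EB.hs_mono (by omega)
    have h8 : wlg X (fun n => min 1 (er lam R S (n + (1 + t)) (b (n + (1 + t) - 1 - t) t)
        (β (n + (1 + t) - 1 - t) t))) ≤
        wlg X (fun n => er lam R S (n + 1 + t) (b n t) (β n t)) := by
      refine wlg_mono fun n _ => ?_
      have e1 : n + (1 + t) - 1 - t = n := by omega
      have e2 : n + (1 + t) = n + 1 + t := by omega
      rw [e1, e2]
      exact min_le_right _ _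
    linarith
  rw [h3]
  refine h1.trans (h2.le.trans ?_)
  rw [div_add' _ _ _ hT0.ne']
  refine div_le_div_of_nonneg_right ((sum_le_sum h4).trans (le_of_eq ?_)) hT0.le
  rw [sum_add_distrib, sum_const, card_range, nsmul_eq_mul]
  ring

lemma oct_card_pos (m : ℕ) : (0 : ℝ) < ((oct m).card : ℝ) := by
  have h1 : (oct m).Nonempty := by
    obtain ⟨p, hp, h1, h2⟩ := Nat.exists_prime_lt_and_le_two_mul (2 ^ m)
      (pow_ne_zero m two_ne_zero)
    refine ⟨p, ?_⟩
    unfold oct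
    rw [mem_filter, mem_Ioc]
    refine ⟨⟨h1, ?_⟩, hp⟩
    rw [pow_succ]
    omega
  exact_mod_cast card_pos.2 h1

theorem pf_RZL (hG : Pool.Agent.H3.GW.W_GH0) (hF : T_RZB) (hS : T_SFO) (hM : T_LPS)
    (hB : T_PSB) : T_RZL := by
  obtain ⟨c0, K0, hc0, hK0, hG⟩ := hG
  obtain ⟨K, hK1, hKc⟩ : ∃ K : ℕ, 1 ≤ K ∧ 32000 / c0 ≤ (K : ℝ) :=
    ⟨⌈32000 / c0⌉₊ + 1, by omega, by
      push_cast
      linarith [Nat.le_ceil (32000 / c0)]⟩
  refine ⟨c0 / 400, K, by positivity, fun H => ?_⟩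
  obtain ⟨R, A, m₀, hA, hF⟩ := hF H (c0 / 8) (by positivity)
  obtain ⟨H₀, hG⟩ := hG R
  obtain ⟨Ls, W₁, X₀, hLs, hS⟩ := hS H (max m₀ H₀) (2 * (c0 / 400)) (by positivity)
  have hlog : Filter.Tendsto (fun L : ℕ => Real.log (L : ℝ)) Filter.atTop Filter.atTop :=
    Real.tendsto_log_atTop.comp tendsto_natCast_atTop_atTop
  have hcast : Filter.Tendsto (fun L : ℕ => (L : ℝ)) Filter.atTop Filter.atTop :=
    tendsto_natCast_atTop_atTop
  obtain ⟨L₀, hL₀⟩ := Filter.eventually_atTop.1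
    ((((((Filter.eventually_ge_atTop Ls).and (hcast.eventually_ge_atTop
      (6400 * ((H : ℝ) + 1) ^ 2 * Ls / c0))).and (hlog.eventually_ge_atTop X₀)).and
      (hlog.eventually_ge_atTop 1)).and (hlog.eventually_ge_atTop (K0 * Real.log (A * 2 ^ W₁ : ℝ)))).and
      (hlog.eventually_ge_atTop (24 * (1 + Real.log (2 ^ W₁ : ℝ)) / c0)))
  refine ⟨L₀, fun X L lam hL hK hl a ha => ?_⟩
  obtain ⟨⟨⟨⟨⟨hL1, hL2⟩, hL3⟩, hL4⟩, hL5⟩, hL6⟩ := hL₀ L hL
  by_contra hcon
  push Not at hcon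
  have hK1R : (1 : ℝ) ≤ K := by exact_mod_cast hK1
  have hlogX : Real.log L ≤ X.L := by
    have h1 : 1 * Real.log L ≤ K * Real.log L := mul_le_mul_of_nonneg_right hK1R (by linarith)
    linarith
  have hX1 : 1 ≤ X.L := hL4.trans hlogX
  have hL0 : 1 ≤ L := hLs.trans hL1
  have hL0R : (0 : ℝ) < L := by exact_mod_cast hL0
  have h1 : wlg X (fun n => ps lam H L 1 n) ≤ c0 / 400 * X.L := by
    refine (wlg_mono fun n _ => ?_).trans hcon
    exact (hB lam H L 1 n hl.pm hL0).2.2.1 (a n) (ha n)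
  have h2 := hM lam H L Ls 1 X hl.pm hLs hL1
  have h3 : 10 * (1 + Real.log L) ≤ c0 / 1600 * X.L := by
    have h4 : 32000 / c0 * Real.log L ≤ X.L :=
      (mul_le_mul_of_nonneg_right hKc (by linarith)).trans hK
    have h5 : Real.log L ≤ c0 / 32000 * X.L := by
      calc Real.log L = c0 / 32000 * (32000 / c0 * Real.log L) := by field_simp
        _ ≤ _ := mul_le_mul_of_nonneg_left h4 (by positivity)
    linarith
  have h4 : 2 * ((H : ℝ) + 1) ^ 2 * Ls / L * (1 + X.L) ≤ c0 / 1600 * X.L := by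
    have h5 : 2 * ((H : ℝ) + 1) ^ 2 * Ls / L ≤ c0 / 3200 := by
      rw [div_le_iff₀ hL0R]
      rw [div_le_iff₀ hc0] at hL2
      linarith
    calc 2 * ((H : ℝ) + 1) ^ 2 * Ls / L * (1 + X.L) ≤ c0 / 3200 * (2 * X.L) :=
          mul_le_mul h5 (by linarith) (by linarith) (by positivity)
      _ = c0 / 1600 * X.L := by ring
  have h5 : wlg X (fun n => ps lam H Ls 1 n) ≤ 2 * (c0 / 400) * X.L := by
    nlinarith
  obtain ⟨m, w, hm, h2m, hw, hSm⟩ := hS X lam (hL3.trans hlogX) hl h5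
  have hch : ∀ n q, ∃ cc : ℕ → ℂ, Flt H cc ∧
      fl lam H (2 ^ w) q n cc ≤ ps lam H (2 ^ w) q n + c0 / 64 := fun n q =>
    (hB lam H (2 ^ w) q n hl.pm Nat.one_le_two_pow).2.2.2 _ (by positivity)
  choose cc hcc1 hcc2 using hch
  have hF' := fun n => hF m w ((le_max_left _ _).trans hm) h2m lam hl.pm (cc n)
    (fun q => (hcc1 n q).2.ge) n
  choose b β hb hE using hF'
  obtain ⟨B, β', hB', hE'⟩ := avg_choice lam hl.pm R (A * 2 ^ m) (2 ^ w)
    (Nat.mul_pos hA (by positivity)) Nat.one_le_two_pow b β hb X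
  have hwlog : Real.log ((2 ^ w : ℕ) : ℝ) ≤ Real.log (2 ^ W₁ : ℝ) := by
    push_cast
    exact Real.log_le_log (by positivity) (pow_le_pow_right₀ (by norm_num) hw)
  have hAR : (0 : ℝ) < A := by exact_mod_cast hA
  have hmlog : Real.log ((A * 2 ^ m : ℕ) : ℝ) ≤ Real.log (A * 2 ^ W₁ : ℝ) := by
    push_cast
    exact Real.log_le_log (by positivity)
      (mul_le_mul_of_nonneg_left (pow_le_pow_right₀ (by norm_num) (by omega)) hAR.le)
  have hfin := hG X (A * 2 ^ m) lam ((le_max_right m₀ H₀).trans (hm.trans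
      (Nat.lt_two_pow_self.le.trans (Nat.le_mul_of_pos_left _ hA))))
    (by
      refine (mul_le_mul_of_nonneg_left hmlog (Nat.cast_nonneg _)).trans ?_
      exact hL5.trans hlogX) hl B β' hB'
  have hcard := oct_card_pos m
  have h6 : wlg X (fun n => (∑ t ∈ range (2 ^ w),
      er lam R (A * 2 ^ m) (n + 1 + t) (b n t) (β n t)) / ((2 ^ w : ℕ) : ℝ)) ≤
      wlg X (fun n => 2 / ((oct m).card : ℝ) * ∑ q ∈ oct m, ps lam H (2 ^ w) q n +
        c0 / 4 * 1) := by
    refine wlg_mono fun n _ => ?_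
    have h7 := hE n
    have h8 : ∑ q ∈ oct m, fl lam H (2 ^ w) q n (cc n q) ≤
        ∑ q ∈ oct m, ps lam H (2 ^ w) q n + (oct m).card * (c0 / 64) := by
      refine (sum_le_sum fun q _ => hcc2 n q).trans (le_of_eq ?_)
      rw [sum_add_distrib, sum_const, nsmul_eq_mul]
    have h9 : (∑ q ∈ oct m, fl lam H (2 ^ w) q n (cc n q)) / ((oct m).card : ℝ) ≤
        (∑ q ∈ oct m, ps lam H (2 ^ w) q n) / ((oct m).card : ℝ) + c0 / 64 := by
      rw [div_add' _ _ _ hcard.ne']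
      refine div_le_div_of_nonneg_right (h8.trans (le_of_eq ?_)) hcard.le
      ring
    have h10 : (∑ t ∈ range (2 ^ w), er lam R (A * 2 ^ m) (n + 1 + t) (b n t) (β n t)) /
        ((2 ^ w : ℕ) : ℝ) ≤ 2 * ((∑ q ∈ oct m, fl lam H (2 ^ w) q n (cc n q)) /
          ((oct m).card : ℝ)) + c0 / 8 := by
      unfold er
      have e3 : ((2 ^ w : ℕ) : ℝ) = 2 ^ w := by push_cast; rfl
      rw [e3]
      exact h7
    calc _ ≤ _ := h10
      _ ≤ 2 * ((∑ q ∈ oct m, ps lam H (2 ^ w) q n) / ((oct m).card : ℝ) + c0 / 16) + c0 / 8 := by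
          linarith
      _ = _ := by ring
  have h7 : wlg X (fun n => 2 / ((oct m).card : ℝ) * ∑ q ∈ oct m, ps lam H (2 ^ w) q n +
        c0 / 4 * 1) ≤ 16 * (c0 / 400) * X.L + c0 / 4 * (1 + X.L) := by
    rw [wlg_add, wlg_mul, wlg_mul, wlg_sum]
    have h8 : 2 / ((oct m).card : ℝ) * ∑ q ∈ oct m, wlg X (fun n => ps lam H (2 ^ w) q n) ≤
        16 * (c0 / 400) * X.L := by
      refine (mul_le_mul_of_nonneg_left hSm (by positivity)).trans (le_of_eq ?_)
      field_simp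
      ring
    exact add_le_add h8 (mul_le_mul_of_nonneg_left (wlg_one_le X) (by positivity))
  have h8 : 3 * EB.hs (2 ^ w) ≤ c0 / 8 * X.L := by
    have h9 := EB.hs_le (2 ^ w)
    have h10 : 24 * (1 + Real.log (2 ^ W₁ : ℝ)) / c0 ≤ X.L := hL6.trans hlogX
    rw [div_le_iff₀ hc0] at h10
    linarith
  have hfin' : c0 * X.L < wlg X (fun n => er lam R (A * 2 ^ m) n (B n) (β' n)) := hfin
  have h9 : c0 * X.L < 16 * (c0 / 400) * X.L + c0 / 4 * (1 + X.L) + c0 / 8 * X.L := by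
    linarith
  nlinarith

end Pool.Agent.H19.QP
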